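import Pool.Agent.W912.BG.Open

/-!
# Under the continuum hypothesis there is a subgroup of `ℤ ^ ℕ` of size continuum satisfying
`S₁(B_Ω, B_Γ)`

The classes of covers (`BorelFam`, `OpenFam`, `OmegaOf`, `GammaOf`) and the selection principle
`S1` are defined in `Pool.Agent.Helper185.SelDefs`.

Idea of the proof. A condition is a set `A` of free coordinates together with a rule which gives,
for every other coordinate, the value of a `0`-`1`-sequence there in terms of its earlier values;
conditions are compared modulo finite sets of coordinates. Along a tower of length `ω₁` of
conditions one treats all sequences of countable families of Borel sets. Either a fusion gives a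
stronger condition and a selection such that all integer combinations of old elements and of
arbitrary points which almost obey the condition lie in almost all chosen sets, or finitely many
mutually generic points can be added to the group such that one of the families is not an
`ω`-cover any more.
-/

namespace Pool.Agent.Results.MP_cc0654_lc.GammaGroupCH

open Pool.Agent.Helper185.Sel

/-- The continuum hypothesis implies that there is a subgroup `G` of `ℤ ^ ℕ` of cardinality
continuum which satisfies `S₁(B_Ω, B_Γ)` and `S₁(Ω, Γ)`; moreover all finite powers of `G`
satisfy `S₁(B_Ω, B_Γ)`. -/
theorem result : Cardinal.aleph 1 = Cardinal.continuum.{0} →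
    ∃ G : AddSubgroup (ℕ → ℤ), Cardinal.mk G = Cardinal.continuum ∧
      S1 (OmegaOf (BorelFam G)) (GammaOf (BorelFam G)) ∧
      S1 (OmegaOf (OpenFam G)) (GammaOf (OpenFam G)) ∧
      ∀ d : ℕ, S1 (OmegaOf (BorelFam (Fin d → G))) (GammaOf (BorelFam (Fin d → G))) :=
  Pool.Agent.W912.BG.main_all

end Pool.Agent.Results.MP_cc0654_lc.GammaGroupCH
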